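import Pool.Agent.H144Z.Grom.Main

set_option autoImplicit false

namespace Pool.Agent.Results.MP_b48dd4_gt.AGromovBound

open Pool.Agent.H144Z.Grom

/-- The number of balanced vertices of a planar geodesic net is bounded by a function of the
number of unbalanced vertices and of the total imbalance. -/
theorem result : ∃ F : ℕ → ℝ → ℕ, ∀ (n : ℕ) (I : ℝ) (G : PlaneGraph), G.IsGeodesicNet →
    G.unbalanced.card = n → G.totalImbalance ≤ I → G.balanced.card ≤ F n I :=
  main

end Pool.Agent.Results.MP_b48dd4_gt.AGromovBound
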